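import Pool.Agent.Work.MP_46fa68_31.RtD
import Pool.Agent.Work.MP_46fa68_19.m7_11_4.T

/-! # MP_46fa68_co, full marked kernel m7_11_4: row, cell, both, positivity -/

set_option autoImplicit false
set_option maxRecDepth 1000000

namespace Pool.JM.MK.m7_11_4

def sm : RT.Sc := [(8159, [4, 12]), (12223, [5, 11, 13]), (14207, [6, 10, 13]), (15103, [7, 9, 13]), (20351, [6, 11, 14]), (22271, [7, 10, 12, 14]), (23039, [8, 12, 14]), (26111, [8, 10, 14]), (36607, [7, 11, 15]), (38399, [8, 10, 12, 15]), (41983, [9, 13, 15]), (69119, [8, 11, 16]), (70655, [9, 12, 16]), (134143, [9, 11, 17]), (264191, [10, 18])]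

def sm1 : RT.Sc := [(8127, [5, 12]), (12159, [6, 11, 13]), (14079, [7, 10, 13]), (14847, [8, 13]), (20223, [7, 11, 14]), (22015, [8, 10, 12, 14]), (25599, [9, 14]), (36351, [8, 11, 15]), (37887, [9, 12, 15]), (68607, [9, 11, 16]), (133119, [10, 17])]

def sch : List RT.Sc := [[(8063, [6, 12]), (12031, [7, 11, 13]), (13823, [8, 10, 13]), (19967, [8, 11, 14]), (21503, [9, 12, 14]), (35839, [9, 11, 15]), (67583, [10, 16])],
  [(7935, [7, 12]), (11775, [8, 11, 13]), (13311, [9, 13]), (19455, [9, 11, 14]), (34815, [10, 15])],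
  [(7679, [8, 12]), (11263, [9, 11, 13]), (18431, [10, 14])],
  [(7167, [9, 12]), (10239, [10, 13])],
  [(6143, [10, 12])],
  [(4095, [11])]]

def Tn : RT.CT := (.t 50943 (.t 26559 (.t 15999 (.t 14319 (.t 12279 (.l 8187) (.l 12279)) (.t 15327 (.l 14319) (.t 15807 (.l 15327) (.l 15807)))) (.t 22495 (.t 20463 (.l 15999) (.l 20463)) (.t 23487 (.l 22495) (.t 23935 (.l 23487) (.l 23935))))) (.t 38847 (.t 27903 (.t 27519 (.l 26559) (.l 27519)) (.t 29439 (.l 27903) (.t 36831 (.l 29439) (.l 36831)))) (.t 42879 (.t 39807 (.l 38847) (.t 40191 (.l 39807) (.l 40191))) (.t 43775 (.l 42879) (.t 45567 (.l 43775) (.l 45567)))))) (.t 136959 (.t 75519 (.t 69567 (.t 51711 (.l 50943) (.l 51711)) (.t 71551 (.l 69567) (.t 72447 (.l 71551) (.l 72447)))) (.t 83455 (.t 76287 (.l 75519) (.l 76287)) (.t 99327 (.l 83455) (.t 135039 (.l 99327) (.l 135039))))) (.t 267775 (.t 140799 (.t 137727 (.l 136959) (.l 137727)) (.t 148479 (.l 140799) (.t 265983 (.l 148479) (.l 265983)))) (.t 529407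 (.t 271359 (.l 267775) (.t 527871 (.l 271359) (.l 527871))) (.t 1051647 (.l 529407) (.t 2099199 (.l 1051647) (.l 2099199)))))))

def Ts : List RT.CT := [(.t 42751 (.t 23423 (.t 15295 (.t 12271 (.l 8183) (.t 14303 (.l 12271) (.l 14303))) (.t 20447 (.t 15743 (.l 15295) (.l 15743)) (.t 22463 (.l 20447) (.l 22463)))) (.t 29183 (.t 26495 (.t 23807 (.l 23423) (.l 23807)) (.t 27391 (.l 26495) (.l 27391))) (.t 38783 (.t 36799 (.l 29183) (.l 36799)) (.t 39679 (.l 38783) (.l 39679))))) (.t 82943 (.t 69503 (.t 43519 (.l 42751) (.t 50687 (.l 43519) (.l 50687))) (.t 72191 (.t 71423 (.l 69503) (.l 71423)) (.t 75263 (.l 72191) (.l 75263)))) (.t 265727 (.t 136703 (.t 134911 (.l 82943) (.l 134911)) (.t 140287 (.l 136703) (.l 140287))) (.t 527359 (.t 267263 (.l 265727) (.l 267263)) (.t 1050623 (.l 527359) (.l 1050623)))))),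
  (.t 38655 (.t 20415 (.t 14271 (.t 12255 (.l 8175) (.l 12255)) (.t 15231 (.l 14271) (.t 15615 (.l 15231) (.l 15615)))) (.t 26367 (.t 22399 (.l 20415) (.t 23295 (.l 22399) (.l 23295))) (.t 27135 (.l 26367) (.t 36735 (.l 27135) (.l 36735))))) (.t 71167 (.t 42495 (.t 39423 (.l 38655) (.l 39423)) (.t 50175 (.l 42495) (.t 69375 (.l 50175) (.l 69375)))) (.t 136191 (.t 74751 (.l 71167) (.t 134655 (.l 74751) (.l 134655))) (.t 265215 (.l 136191) (.t 526335 (.l 265215) (.l 526335)))))),
  (.t 26111 (.t 15103 (.t 12223 (.l 8159) (.t 14207 (.l 12223) (.l 14207))) (.t 22271 (.t 20351 (.l 15103) (.l 20351)) (.t 23039 (.l 22271) (.l 23039)))) (.t 69119 (.t 38399 (.t 36607 (.l 26111) (.l 36607)) (.t 41983 (.l 38399) (.l 41983))) (.t 134143 (.t 70655 (.l 69119) (.l 70655)) (.t 264191 (.l 134143) (.l 264191)))))]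

theorem hsc : RT.scOK 20 4095 (cs (7 + 1)) (sm :: sm1 :: sch) = true := by decide +kernel

theorem hsc1 : RT.scOK 20 4095 (cs 7) (sm1 :: sch) = true := by decide +kernel

theorem hrowC : RT.rowChk 27720 23 4095 sm1 sch (tB 7) (tD 7)
    (-21204670418577173003179292977751658) = true := by decide +kernel

theorem hbothC : RT.bothChk 27720 23 4095 7 sm (sm1 :: sch) (tB 8) (tD 8)
    1447939873476158885621799567221186 (-21204670418577173003179292977751658) = true := by decide +kernel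

theorem hcellC : RT.cellChk 27720 23 4095 Tn Ts sm (sm1 :: sch) (tB 10) 720 3628800
    8907081983949286635997111616065345 (-127837494134987466037393700515532965) = true := by decide +kernel

theorem hct : RT.tChk ((List.range (10 + 1 - 7)).map fun i => cs (10 - i)) (Tn :: Ts) = true := by
  decide +kernel

theorem hpsd : allL (cs 10) (chP 23 (tB 10)) = true := by decide +kernel

theorem hTB2 : allL (cs (5 + 1)) (chTB (2 ^ 32) 27720 23 (5 + 1) 133119 17
    (-21204670418577173003179292977751658) 87036936872245949929992125871469999 (tB (5 + 1)) tG tF tH) = true := by decide +kernel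

end Pool.JM.MK.m7_11_4
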