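import Pool.Agent.Work.MP_46fa68_19.m7_11_4.Chk
import Pool.Agent.Work.MP_46fa68_31.m7_11_4.R
import Pool.Agent.Work.MP_46fa68_31.Cell
import Pool.Agent.Work.MP_46fa68_95.PsdB
import Pool.Agent.Work.MP_46fa68_74.Scale

/-! # MP_46fa68_co, full marked kernel m7_11_4: the gaps -/

set_option autoImplicit false

namespace Pool.JM.MK.m7_11_4

open Finset Pool.EG Pool.JM

theorem sc : ScIneq (10 + 1) (10 + 1 - (5 + 2)) (((8907081983949286635997111616065345 : ℤ) : ℝ) / 2 ^ 112)
    (((1447939873476158885621799567221186 : ℤ) : ℝ) / 2 ^ 112) (((-127837494134987466037393700515532965 : ℤ) : ℝ) / 2 ^ 112)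
    ((((-21204670418577173003179292977751658 : ℤ) : ℝ) + ((87036936872245949929992125871469999 : ℤ) : ℝ)) / 2 ^ 112 - (5 + 2).factorial * (1 / 10 ^ 19))
    ((((-21204670418577173003179292977751658 : ℤ) : ℝ)) / 2 ^ 112 - (5 + 2).factorial * (1 / 10 ^ 19)) := by
  have hc0 : 4095 = RT.cd (range 12) := by
    have h := cd_range 12
    change 4095 = cd (range 12)
    rw [h]
    norm_num
  obtain ⟨al, h1, h2, h3⟩ := RT.cellChk_sound (N := 10 + 1) (M := 12) (m := 5 + 2) (n := 10)
    (K := 20) (R := 12) (S := (2 : ℝ) ^ 112) (cs := cs) (by norm_num) (by norm_num)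
    (by norm_num) (by positivity) hL (by norm_num) (by norm_num) (by norm_num) (by norm_num) hc0
    (by rfl) (by rfl) (by norm_num [Nat.factorial]) (by norm_num [Nat.factorial])
    (fun k hk => hcs k (by omega)) hct hsc hcellC
  exact full_tables (n := 10) (j := 5) (M := 12) (L := 27720) (W := 23) (R := 12) (N := 30)
    (T := 2 ^ 32) (S := (2 : ℝ) ^ 112) (by norm_num) (by norm_num) hL (by norm_num) (by norm_num)
    (by norm_num) (by positivity) tB tD cs hcs hN hGz hG hsB hsD hr0 (by norm_num) hTB2 hTD hd hE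
    (chP_sound (by positivity) (by norm_num) (hcs 10 (by norm_num)) hpsd) al h1 h2 h3
    (RT.rowChk_sound (N := 10 + 1) (K := 20) (R := 12) (cs := cs 7) (by norm_num) (by norm_num)
      (by positivity) hL (by norm_num) (by norm_num) (by norm_num) (by norm_num) hc0 (by rfl) hsc1
      hrowC)
    (RT.bothChk_sound (N := 10 + 1) (K := 20) (R := 12) (m := 5 + 2) (by norm_num) (by norm_num)
      (by positivity) hL (by norm_num) (by norm_num) (by norm_num) (by norm_num) hc0 (by rfl) hsc
      hbothC)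

theorem gap_16o25_283o1000_33o50 : Gap 11 4 (16 / 25) (283 / 1000) (33 / 50) := by
  have h : ExclS (10 + 1) (10 + 1 - (5 + 2)) (16 / 25) (283 / 1000) (33 / 50) := by
    refine excl_of_scaled (by norm_num) sc (by norm_num) (by norm_num) ?_ ?_ ?_ ?_ ?_ ?_ ?_ ?_ <;>
      norm_num [Nat.factorial]
  exact h.gap

theorem gap_741o1000_1o4_33o50 : Gap 11 4 (741 / 1000) (1 / 4) (33 / 50) := by
  have h : ExclS (10 + 1) (10 + 1 - (5 + 2)) (741 / 1000) (1 / 4) (33 / 50) := by
    refine excl_of_scaled (by norm_num) sc (by norm_num) (by norm_num) ?_ ?_ ?_ ?_ ?_ ?_ ?_ ?_ <;>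
      norm_num [Nat.factorial]
  exact h.gap

end Pool.JM.MK.m7_11_4
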